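import Mathlib
import Pool.Agent.Lib.MP_dcd76c_al.Def
import Pool.Agent.Lib.MP_dcd76c_al.Main

/-!
# Every odd number at least three is the chromatic number of a commuting graph
-/

namespace Pool.Agent.Results.MP_dcd76c_al.OddChromatic

open Pool.Agent.Lib.MP_dcd76c_al

/-- For every positive integer `n` there is a finite non-abelian group whose commuting graph has
chromatic number `2 * n + 1`. -/
theorem result : ∀ n : ℕ, 0 < n → ∃ (G : Type) (_ : Group G),
    Finite G ∧ (¬ ∀ a b : G, a * b = b * a) ∧
      (commutingGraph G).chromaticNumber = ((2 * n + 1 : ℕ) : ℕ∞) := by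
  intro n hn
  obtain ⟨p, m, hp, hp2, hm, hpm⟩ := exists_prime_factor hn
  have : Fact p.Prime := ⟨hp⟩
  have : NeZero m := ⟨hm⟩
  exact ⟨GG p m, inferInstance, inferInstance, not_comm_GG p m hp2, by
    rw [chromaticNumber_GG p m hp2, hpm]⟩

end Pool.Agent.Results.MP_dcd76c_al.OddChromatic
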